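import Mathlib

namespace Pool.Agent.Results.MP_98cb65_gt.Torus

open Topology PiCountable

theorem lc : LocallyConnectedSpace UnitAddCircle :=
  (QuotientAddGroup.isQuotientMap_mk (N := AddSubgroup.zmultiples (1 : ℝ))).isCoinducing.locallyConnectedSpace

theorem exists_ne : ∃ g : UnitAddCircle, g ≠ 0 := by
  refine ⟨((1 / 2 : ℝ) : UnitAddCircle), fun h => ?_⟩
  rw [AddCircle.coe_eq_zero_iff] at h
  obtain ⟨n, hn⟩ := h
  simp only [zsmul_eq_mul, mul_one] at hn
  have h2 : (2 * n : ℝ) = 1 := by linarith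
  have h3 : (2 * n : ℤ) = 1 := by exact_mod_cast h2
  omega

theorem iter (g : ℕ → UnitAddCircle) (ν : ℕ) (x : ℕ → UnitAddCircle) :
    (fun y : ℕ → UnitAddCircle => y + g)^[ν] x = x + ν • g := by
  induction ν with
  | zero => simp
  | succ ν ih =>
    rw [Function.iterate_succ_apply', ih, succ_nsmul, add_assoc]

/-- There is a locally connected continuum (the countable power of the circle) without
property (F). -/
theorem result : ∃ (X : Type) (_ : MetricSpace X) (_ : CompactSpace X) (_ : ConnectedSpace X)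
    (_ : LocallyConnectedSpace X), ∀ B : ℝ, 0 < B → ∃ T : X → X, Continuous T ∧
      (∀ x : X, ∀ ν : ℕ, 1 ≤ ν → dist (T^[ν] x) x < B) ∧ ∀ x : X, T x ≠ x := by
  have := lc
  refine ⟨ℕ → UnitAddCircle, PiCountable.metricSpace, inferInstance, inferInstance,
    inferInstance, fun B hB => ?_⟩
  obtain ⟨k, hk⟩ : ∃ k : ℕ, (2⁻¹ : ℝ) ^ k < B := exists_pow_lt_of_lt_one hB (by norm_num)
  obtain ⟨g, hg⟩ := exists_ne
  refine ⟨fun x => x + Pi.single k g, continuous_id.add continuous_const, ?_, ?_⟩
  · intro x ν _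
    rw [iter, PiCountable.dist_eq_tsum]
    have h1 : ∀ i : ℕ, i ≠ k → min ((2⁻¹ : ℝ) ^ Encodable.encode i)
        (dist ((x + ν • Pi.single k g : ℕ → UnitAddCircle) i) (x i)) = 0 := by
      intro i hi
      have : (x + ν • Pi.single k g : ℕ → UnitAddCircle) i = x i := by
        simp [Pi.single_eq_of_ne hi]
      rw [this, dist_self]
      exact min_eq_right (by positivity)
    rw [tsum_eq_single k h1]
    exact lt_of_le_of_lt (min_le_left _ _) (by simpa using hk)
  · intro x h
    have := congrFun h k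
    simp only [Pi.add_apply, Pi.single_eq_same, add_eq_left] at this
    exact hg this

end Pool.Agent.Results.MP_98cb65_gt.Torus
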